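import Mathlib
import Pool.Agent.H380.AG.Stm

/-! The normalised surface measure of the sphere: product formula and moments
(task POL of MP_937c79_an, project of helper380). -/

set_option autoImplicit false

open MeasureTheory Metric Set Filter Topology
open scoped ENNReal RealInnerProductSpace

namespace Pool.Agent.H767.AG

open Pool.Agent.W778.AG Pool.Agent.H380.AG

section polar

variable {n : ℕ}

/-- surface measure -/
noncomputable abbrev sf (n : ℕ) : Measure (sphere (0 : En n) 1) :=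
  (volume : Measure (En n)).toSphere

lemma nontriv (hn : 1 ≤ n) : Nontrivial (En n) := by
  have : Nonempty (Fin n) := ⟨⟨0, by omega⟩⟩
  infer_instance

lemma measurable_dir : Measurable (dir : En n → En n) := by
  unfold dir
  fun_prop

lemma lint_polar (hn : 1 ≤ n) {F : En n → ℝ≥0∞} {g : ℝ → ℝ≥0∞} (hF : Measurable F)
    (hg : Measurable g) :
    ∫⁻ z : En n, F (dir z) * g ‖z‖ = (∫⁻ u, F u ∂(sf n)) *
        ∫⁻ r : Ioi (0:ℝ), g r ∂(Measure.volumeIoiPow (Module.finrank ℝ (En n) - 1)) := by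
  have := nontriv hn
  have hmp := (volume : Measure (En n)).measurePreserving_homeomorphUnitSphereProd
  rw [← lintegral_prod_mul (f := fun u : sphere (0 : En n) 1 => F u)
    (g := fun r : Ioi (0:ℝ) => g r) (hF.comp measurable_subtype_coe).aemeasurable
    (hg.comp measurable_subtype_coe).aemeasurable]
  rw [← hmp.lintegral_comp (by fun_prop)]
  have h1 : ∫⁻ z : En n, F (dir z) * g ‖z‖ = ∫⁻ z in {0}ᶜ, F (dir z) * g ‖z‖ := by
    rw [restrict_compl_singleton]
  rw [h1, ← lintegral_subtype_comap (measurableSet_singleton _).compl]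
  refine lintegral_congr fun x => ?_
  rw [homeomorphUnitSphereProd_apply_snd_coe, homeomorphUnitSphereProd_apply_fst_coe]
  rfl

lemma int_polar (hn : 1 ≤ n) (F : En n → ℝ) (g : ℝ → ℝ) :
    ∫ z : En n, F (dir z) * g ‖z‖ = (∫ u, F u ∂(sf n)) *
        ∫ r : Ioi (0:ℝ), g r ∂(Measure.volumeIoiPow (Module.finrank ℝ (En n) - 1)) := by
  have := nontriv hn
  have hmp := (volume : Measure (En n)).measurePreserving_homeomorphUnitSphereProd
  rw [← integral_prod_mul (fun u : sphere (0 : En n) 1 => F u) (fun r : Ioi (0:ℝ) => g r)]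
  rw [← hmp.integral_comp (Homeomorph.measurableEmbedding _)]
  have h1 : ∫ z : En n, F (dir z) * g ‖z‖ = ∫ z in {0}ᶜ, F (dir z) * g ‖z‖ := by
    rw [restrict_compl_singleton]
  rw [h1, ← integral_subtype_comap (measurableSet_singleton _).compl]
  refine integral_congr_ae (Eventually.of_forall fun x => ?_)
  simp only
  rw [homeomorphUnitSphereProd_apply_snd_coe, homeomorphUnitSphereProd_apply_fst_coe]
  rfl

/-- the uniform probability measure of the sphere -/
noncomputable def sg (n : ℕ) : Measure (En n) := (sf n univ)⁻¹ • (sf n).map Subtype.val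

lemma sf_pos (hn : 1 ≤ n) : sf n univ ≠ 0 := by
  have := nontriv hn
  rw [Measure.measure_univ_ne_zero]
  exact Measure.toSphere_ne_zero _

lemma sf_top : sf n univ ≠ ∞ := measure_ne_top _ _

lemma sph_sg (hn : 1 ≤ n) : Sph (sg n) := by
  constructor
  · constructor
    rw [sg, Measure.smul_apply, Measure.map_apply measurable_subtype_coe MeasurableSet.univ,
      preimage_univ, smul_eq_mul, ENNReal.inv_mul_cancel (sf_pos hn) sf_top]
  · rw [sg, Measure.smul_apply, Measure.map_apply measurable_subtype_coe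
      (isClosed_sphere.measurableSet.compl)]
    have : (Subtype.val ⁻¹' (sphere (0 : En n) 1)ᶜ : Set (sphere (0 : En n) 1)) = ∅ := by
      ext x
      simp
    rw [this]
    simp

lemma lint_sg {F : En n → ℝ≥0∞} (hF : Measurable F) :
    ∫⁻ u, F u ∂(sg n) = (sf n univ)⁻¹ * ∫⁻ u, F u ∂(sf n) := by
  rw [sg, lintegral_smul_measure, lintegral_map hF measurable_subtype_coe, smul_eq_mul]

lemma int_sg (F : En n → ℝ) :
    ∫ u, F u ∂(sg n) = (sf n univ)⁻¹.toReal * ∫ u, F u ∂(sf n) := by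
  rw [sg, integral_smul_measure, (MeasurableEmbedding.subtype_coe
    isClosed_sphere.measurableSet).integral_map, smul_eq_mul]

lemma prod_formula (hn : 1 ≤ n) {F : En n → ℝ≥0∞} {g : ℝ → ℝ≥0∞} (hF : Measurable F)
    (hg : Measurable g) :
    ∫⁻ z : En n, F (dir z) * g ‖z‖ = (∫⁻ u, F u ∂(sg n)) * ∫⁻ z : En n, g ‖z‖ := by
  have h1 := lint_polar hn hF hg
  have h2 := lint_polar hn (F := fun _ => 1) measurable_const hg
  simp only [one_mul, lintegral_const] at h2
  rw [h1, h2, lint_sg hF, mul_comm (sf n univ)⁻¹, mul_assoc, ← mul_assoc (sf n univ)⁻¹,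
    ENNReal.inv_mul_cancel (sf_pos hn) sf_top, one_mul]

lemma prod_formula_int (hn : 1 ≤ n) (F : En n → ℝ) (g : ℝ → ℝ) :
    ∫ z : En n, F (dir z) * g ‖z‖ = (∫ u, F u ∂(sg n)) * ∫ z : En n, g ‖z‖ := by
  have h1 := int_polar hn F g
  have h2 := int_polar hn (fun _ => 1) g
  simp only [one_mul, integral_const, smul_eq_mul, mul_one] at h2
  rw [h1, h2, int_sg]
  have h3 : (sf n univ)⁻¹.toReal * (sf n).real univ = 1 := by
    rw [Measure.real, ← ENNReal.toReal_mul, ENNReal.inv_mul_cancel (sf_pos hn) sf_top]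
    rfl
  calc (∫ u, F u ∂(sf n)) * _ = ((sf n univ)⁻¹.toReal * (sf n).real univ) *
      ((∫ u, F u ∂(sf n)) * _) := by rw [h3, one_mul]
    _ = _ := by ring

end polar

section gauss

/-- moments of the Gaussian density -/
noncomputable def Gm (j : ℕ) : ℝ := ∫ t : ℝ, t ^ j * Real.exp (-(1 / 2) * t ^ 2)

lemma Gm_int (j : ℕ) : Integrable (fun t : ℝ => t ^ j * Real.exp (-(1 / 2) * t ^ 2)) := by
  have h := integrable_rpow_mul_exp_neg_mul_sq (b := 1 / 2) (by norm_num) (s := (j : ℝ))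
    (by have : (0 : ℝ) ≤ j := Nat.cast_nonneg j
        linarith)
  simpa only [Real.rpow_natCast] using h

lemma Gm_rec (j : ℕ) : Gm (j + 2) = (j + 1) * Gm j := by
  have h := integral_mul_deriv_eq_deriv_mul_of_integrable
    (u := fun t : ℝ => t ^ (j + 1)) (v := fun t : ℝ => -Real.exp (-(1 / 2) * t ^ 2))
    (u' := fun t : ℝ => (j + 1) * t ^ j) (v' := fun t : ℝ => t * Real.exp (-(1 / 2) * t ^ 2))
    (fun x _ => by
      have := hasDerivAt_pow (j + 1) x
      simpa using this)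
    (fun x _ => by
      have h1 : HasDerivAt (fun t : ℝ => -(1 / 2) * t ^ 2) (-(1 / 2) * (2 * x)) x := by
        have := (hasDerivAt_pow 2 x).const_mul (-(1 / 2 : ℝ))
        simpa using this
      exact h1.exp.neg.congr_deriv (by ring))
    (by
      have := Gm_int (j + 2)
      refine this.congr (Eventually.of_forall fun t => ?_)
      simp only [Pi.mul_apply]
      ring)
    (by
      have := ((Gm_int j).const_mul ((j : ℝ) + 1)).neg
      refine this.congr (Eventually.of_forall fun t => ?_)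
      simp only [Pi.mul_apply, Pi.neg_apply]
      ring)
    (by
      have := (Gm_int (j + 1)).neg
      refine this.congr (Eventually.of_forall fun t => ?_)
      simp only [Pi.mul_apply, Pi.neg_apply]
      ring)
  have e1 : Gm (j + 2) = ∫ t : ℝ, t ^ (j + 1) * (t * Real.exp (-(1 / 2) * t ^ 2)) := by
    unfold Gm
    refine integral_congr_ae (Eventually.of_forall fun t => ?_)
    simp only
    ring
  rw [e1, h, ← integral_neg]
  unfold Gm
  rw [← integral_const_mul]
  refine integral_congr_ae (Eventually.of_forall fun t => ?_)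
  simp only
  ring

lemma Gm_one : Gm 1 = 0 := by
  have h := integral_neg_eq_self (fun t : ℝ => t ^ 1 * Real.exp (-(1 / 2) * t ^ 2)) volume
  have h2 : ∫ t : ℝ, (-t) ^ 1 * Real.exp (-(1 / 2) * (-t) ^ 2) = - Gm 1 := by
    unfold Gm
    rw [← integral_neg]
    refine integral_congr_ae (Eventually.of_forall fun t => ?_)
    simp only [neg_sq, pow_one, neg_mul]
  rw [h2] at h
  change - Gm 1 = Gm 1 at h
  linarith

/-- radial moments -/
noncomputable def Jm (q : ℕ) : ℝ := ∫ y in Ioi (0 : ℝ), y ^ q * Real.exp (-(1 / 2) * y ^ 2)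

lemma Jm_eq (q : ℕ) : Jm q = (1 / 2 : ℝ) ^ (-((q : ℝ) + 1) / 2) * (1 / 2) *
    Real.Gamma (((q : ℝ) + 1) / 2) := by
  have h := integral_rpow_mul_exp_neg_mul_rpow (p := 2) (q := q) (b := 1 / 2) (by norm_num)
    (by have : (0 : ℝ) ≤ q := Nat.cast_nonneg q
        linarith) (by norm_num)
  rw [← h]
  unfold Jm
  refine setIntegral_congr_fun measurableSet_Ioi fun y hy => ?_
  simp only [Real.rpow_natCast]
  rw [show (2 : ℝ) = ((2 : ℕ) : ℝ) by norm_num, Real.rpow_natCast]

lemma Jm_pos (q : ℕ) : 0 < Jm q := by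
  rw [Jm_eq]
  have : 0 < Real.Gamma (((q : ℝ) + 1) / 2) := Real.Gamma_pos_of_pos (by positivity)
  positivity

lemma Jm_rec (q : ℕ) : Jm (q + 2) = (q + 1) * Jm q := by
  rw [Jm_eq, Jm_eq]
  have h1 : (((q + 2 : ℕ) : ℝ) + 1) / 2 = ((q : ℝ) + 1) / 2 + 1 := by push_cast; ring
  have h2 : -((((q + 2 : ℕ) : ℝ)) + 1) / 2 = -((q : ℝ) + 1) / 2 + (-1) := by push_cast; ring
  rw [h1, h2, Real.Gamma_add_one (by positivity), Real.rpow_add (by norm_num), Real.rpow_neg_one]
  ring

end gauss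

section mom

variable {n : ℕ}

/-- radial moments in `ℝ^n` -/
noncomputable def Wm (n j : ℕ) : ℝ := ∫ z : En n, ‖z‖ ^ j * Real.exp (-(1 / 2) * ‖z‖ ^ 2)

lemma Wm_eq (hn : 1 ≤ n) (j : ℕ) : Wm n j =
    (n : ℝ) * ((volume : Measure (En n)).real (ball 0 1) * Jm (n - 1 + j)) := by
  have := nontriv hn
  unfold Wm
  rw [integral_fun_norm_addHaar (volume : Measure (En n))
    (fun r => r ^ j * Real.exp (-(1 / 2) * r ^ 2)), finrank_euclideanSpace_fin, nsmul_eq_mul,
    smul_eq_mul]
  congr 2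
  unfold Jm
  refine setIntegral_congr_fun measurableSet_Ioi fun y hy => ?_
  simp only [smul_eq_mul]
  rw [pow_add]
  ring

lemma Wm_pos (hn : 1 ≤ n) (j : ℕ) : 0 < Wm n j := by
  have := nontriv hn
  rw [Wm_eq hn]
  have h1 : 0 < (volume : Measure (En n)).real (ball 0 1) := by
    rw [Measure.real]
    exact ENNReal.toReal_pos (measure_ball_pos _ _ one_pos).ne' measure_ball_lt_top.ne
  have h2 : (0 : ℝ) < n := by exact_mod_cast hn
  have h3 := Jm_pos (n - 1 + j)
  positivity

lemma Wm_rec (hn : 1 ≤ n) (j : ℕ) : Wm n (j + 2) = (n + j) * Wm n j := by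
  rw [Wm_eq hn, Wm_eq hn]
  have e : n - 1 + (j + 2) = (n - 1 + j) + 2 := by ring
  rw [e, Jm_rec]
  have e2 : (((n - 1 + j : ℕ) : ℝ)) + 1 = n + j := by
    rw [Nat.cast_add, Nat.cast_sub hn]
    push_cast
    ring
  rw [e2]
  ring

/-- moments of the Gaussian density in the direction `u` -/
noncomputable def Nm (j : ℕ) (u : En n) : ℝ :=
  ∫ z : En n, ⟪z, u⟫ ^ j * Real.exp (-(1 / 2) * ‖z‖ ^ 2)

lemma Nm_eq (hn : 1 ≤ n) (j : ℕ) (u : En n) :
    Nm j u = (∫ b, ⟪b, u⟫ ^ j ∂(sg n)) * Wm n j := by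
  have h := prod_formula_int hn (fun b : En n => ⟪b, u⟫ ^ j)
    (fun r => r ^ j * Real.exp (-(1 / 2) * r ^ 2))
  unfold Nm Wm
  rw [← h]
  refine integral_congr_ae (Eventually.of_forall fun z => ?_)
  simp only
  have e : ⟪z, u⟫ = ‖z‖ * ⟪dir z, u⟫ := by
    unfold dir
    rw [real_inner_smul_left]
    by_cases hz : z = 0
    · subst hz; simp
    · have : ‖z‖ ≠ 0 := norm_ne_zero_iff.mpr hz
      field_simp
  rw [e, mul_pow]
  ring

lemma Nm_unit {i₀ : Fin n} {u : En n} (hu : ‖u‖ = 1) (j : ℕ) :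
    Nm j u = Gm j * ∏ _i ∈ Finset.univ.erase i₀, Gm 0 := by
  have hon : Orthonormal ℝ (({i₀} : Set (Fin n)).domRestrict (fun _ : Fin n => u)) := by
    constructor
    · intro i
      show ‖u‖ = 1
      exact hu
    · intro i k hik
      exact absurd (Subsingleton.elim i k) hik
  obtain ⟨b, hb⟩ := hon.exists_orthonormalBasis_extension_of_card_eq
    (by simp)
  have hbu : b i₀ = u := hb i₀ rfl
  have h1 : Nm j u = ∫ x : En n, x i₀ ^ j * Real.exp (-(1 / 2) * ‖x‖ ^ 2) := by
    rw [← b.measurePreserving_repr.integral_comp b.repr.toHomeomorph.measurableEmbedding]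
    unfold Nm
    refine integral_congr_ae (Eventually.of_forall fun z => ?_)
    simp only
    rw [b.repr.norm_map, b.repr_apply_apply, hbu, real_inner_comm]
  have h2 : (∫ x : En n, x i₀ ^ j * Real.exp (-(1 / 2) * ‖x‖ ^ 2)) =
      ∫ y : Fin n → ℝ, y i₀ ^ j * Real.exp (-(1 / 2) * ∑ i, y i ^ 2) := by
    rw [← (EuclideanSpace.volume_preserving_symm_measurableEquiv_toLp (Fin n)).integral_comp
      (MeasurableEquiv.measurableEmbedding _)]
    refine integral_congr_ae (Eventually.of_forall fun x => ?_)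
    simp only
    rw [EuclideanSpace.real_norm_sq_eq]
    rfl
  have h3 : (∫ y : Fin n → ℝ, y i₀ ^ j * Real.exp (-(1 / 2) * ∑ i, y i ^ 2)) =
      ∫ y : Fin n → ℝ, ∏ i, ((if i = i₀ then y i ^ j else 1) *
        Real.exp (-(1 / 2) * y i ^ 2)) := by
    refine integral_congr_ae (Eventually.of_forall fun y => ?_)
    simp only
    rw [Finset.prod_mul_distrib, ← Real.exp_sum, Finset.mul_sum, Finset.prod_ite_eq']
    simp
  rw [h1, h2, h3, integral_fintype_prod_volume_eq_prod
    (f := fun (i : Fin n) (t : ℝ) => (if i = i₀ then t ^ j else 1) * Real.exp (-(1 / 2) * t ^ 2)),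
    ← Finset.mul_prod_erase Finset.univ _ (Finset.mem_univ i₀)]
  congr 1
  · simp [Gm]
  · refine Finset.prod_congr rfl fun i hi => ?_
    have : i ≠ i₀ := Finset.ne_of_mem_erase hi
    simp [Gm, this]

/-- the moments of the uniform measure satisfy the recursion -/
lemma mom_rec (hn : 1 ≤ n) {u : En n} (hu : ‖u‖ = 1) (j : ℕ) :
    ∫ b, ⟪b, u⟫ ^ (j + 2) ∂(sg n) = ((j : ℝ) + 1) / ((n : ℝ) + j) * ∫ b, ⟪b, u⟫ ^ j ∂(sg n) := by
  have h1 := Nm_eq hn (j + 2) u
  have h2 := Nm_eq hn j u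
  rw [Nm_unit (i₀ := ⟨0, by omega⟩) hu] at h1 h2
  rw [Gm_rec, Wm_rec hn] at h1
  have hW := Wm_pos hn j
  have hnj : (0 : ℝ) < n + j := by
    have : (0 : ℝ) < n := by exact_mod_cast hn
    positivity
  rw [div_mul_eq_mul_div, eq_div_iff hnj.ne']
  apply mul_right_cancel₀ hW.ne'
  calc (∫ b, ⟪b, u⟫ ^ (j + 2) ∂(sg n)) * (n + j) * Wm n j
      = (∫ b, ⟪b, u⟫ ^ (j + 2) ∂(sg n)) * ((n + j) * Wm n j) := by ring
    _ = ((j : ℝ) + 1) * (Gm j * ∏ _i ∈ Finset.univ.erase (⟨0, by omega⟩ : Fin n), Gm 0) := by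
        rw [← h1]; ring
    _ = _ := by rw [h2]; ring

lemma mom_one (hn : 1 ≤ n) {u : En n} (hu : ‖u‖ = 1) : ∫ b, ⟪b, u⟫ ^ 1 ∂(sg n) = 0 := by
  have h1 := Nm_eq hn 1 u
  rw [Nm_unit (i₀ := ⟨0, by omega⟩) hu, Gm_one, zero_mul] at h1
  rcases mul_eq_zero.mp h1.symm with h | h
  · exact h
  · exact absurd h (Wm_pos hn 1).ne'

end mom

theorem t_POLAR (hM : S_MOM) : S_POLAR := by
  intro n hn
  have hn1 : 1 ≤ n := by omega
  refine ⟨sg n, ⟨sph_sg hn1, ?_⟩, fun F g hF hg => prod_formula hn1 hF hg⟩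
  obtain ⟨hodd, -, h0, hrec⟩ := hM (n + 1) (by omega)
  have hprob : IsProbabilityMeasure (sg n) := (sph_sg hn1).1
  -- unit vectors
  have key : ∀ (u : En n), ‖u‖ = 1 → ∀ j : ℕ, ∫ b, ⟪b, u⟫ ^ j ∂(sg n) = mom (n + 1) j := by
    intro u hu j
    induction j using Nat.twoStepInduction with
    | zero => simp [h0]
    | one => rw [mom_one hn1 hu, hodd 1 odd_one]
    | more j ih _ =>
      rw [mom_rec hn1 hu, ih, hrec]
      congr 2
      push_cast
      ring
  intro j u
  by_cases hu : u = 0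
  · subst hu
    rcases Nat.eq_zero_or_pos j with rfl | hj
    · simp [h0]
    · simp [hj.ne']
  · have hu' : ‖u‖ ≠ 0 := norm_ne_zero_iff.mpr hu
    have hd : ‖dir u‖ = 1 := by
      unfold dir
      rw [norm_smul, norm_inv, norm_norm, inv_mul_cancel₀ hu']
    rw [← key (dir u) hd j, ← integral_const_mul]
    refine integral_congr_ae (Eventually.of_forall fun b => ?_)
    simp only
    rw [← mul_pow]
    congr 1
    unfold dir
    rw [real_inner_smul_right]
    field_simp

end Pool.Agent.H767.AG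

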